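import Mathlib

/-!
# The functional volume product is not monotone along the Fokker-Planck flow

Counterexample on the line: `f` is the indicator function of
`[-1, -1 + 10⁻⁵] ∪ [1 - 10⁻², 1]`. Its polar `exp(-|y|)` has barycenter `0`.
-/

open MeasureTheory ProbabilityTheory Real Set
open scoped ENNReal NNReal

namespace Pool.Agent.Results.MP_31abd3_an.NotMonotone

/-- The polar `f°(y) = inf_{x : f(x) > 0} exp(-x y) / f(x)` of a function on the line. -/
noncomputable def polar (f : ℝ → ℝ) (y : ℝ) : ℝ :=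
  ⨅ x : {x : ℝ // 0 < f x}, exp (-((x : ℝ) * y)) / f x

/-- The functional volume product `∫ f ∫ f°`, with values in `[0, ∞]`. -/
noncomputable def volumeProduct (f : ℝ → ℝ) : ℝ≥0∞ :=
  (∫⁻ x, ENNReal.ofReal (f x)) * ∫⁻ y, ENNReal.ofReal (polar f y)

/-- `g` has finite positive integral and finite first moment, and its barycenter is `0`. -/
def BarycenterZero (g : ℝ → ℝ) : Prop :=
  (∀ x, 0 ≤ g x) ∧ Integrable g ∧ 0 < ∫ x, g x ∧ Integrable (fun x => x * g x) ∧
    ∫ x, x * g x = 0

/-- The variance `1 - exp(-2t)` of the Mehler kernel. -/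
noncomputable def var (t : ℝ) : ℝ≥0 := Real.toNNReal (1 - exp (-(2 * t)))

/-- The Fokker-Planck evolution `∂_t f_t = f_t'' + (x f_t)'` with `f_0 = f`, given by Mehler's
formula: for `t > 0`, `f_t(x)` is the integral of `f(z)` against the density at `x` of the normal
law with mean `exp(-t) z` and variance `1 - exp(-2t)`. -/
noncomputable def evolve (f : ℝ → ℝ) (t : ℝ) (x : ℝ) : ℝ :=
  if t = 0 then f x else ∫ z, f z * gaussianPDFReal (exp (-t) * z) (var t) x

/-! ### The example -/

/-- the set `[-1, -1 + 10⁻⁵] ∪ [1 - 10⁻², 1]` -/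
def S : Set ℝ := Icc (-1) (-1 + 1 / 100000) ∪ Icc (1 - 1 / 100) 1

/-- the indicator function of `S` -/
noncomputable def f0 : ℝ → ℝ := S.indicator (fun _ => 1)

lemma S_meas : MeasurableSet S := measurableSet_Icc.union measurableSet_Icc

lemma S_subset {z : ℝ} (hz : z ∈ S) : -1 ≤ z ∧ z ≤ 1 := by
  rcases hz with ⟨h1, h2⟩ | ⟨h1, h2⟩ <;> constructor <;> linarith

lemma f0_pos (x : ℝ) : 0 < f0 x ↔ x ∈ S := by
  unfold f0
  by_cases h : x ∈ S
  · simp [h]
  · simp [h]

lemma one_mem : (1 : ℝ) ∈ S := Or.inr ⟨by norm_num, le_rfl⟩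

lemma neg_one_mem : (-1 : ℝ) ∈ S := Or.inl ⟨le_rfl, by norm_num⟩

lemma polar_f0 (y : ℝ) : polar f0 y = exp (-|y|) := by
  unfold polar
  have : Nonempty {x : ℝ // 0 < f0 x} := ⟨⟨1, (f0_pos 1).mpr one_mem⟩⟩
  have hval : ∀ x : {x : ℝ // 0 < f0 x}, exp (-((x : ℝ) * y)) / f0 x = exp (-((x : ℝ) * y)) := by
    intro x
    have hx := (f0_pos x).mp x.2
    have : f0 x = 1 := by unfold f0; simp [hx]
    rw [this, div_one]
  apply le_antisymm
  · have hb : BddBelow (range fun x : {x : ℝ // 0 < f0 x} => exp (-((x : ℝ) * y)) / f0 x) := by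
      refine ⟨0, ?_⟩
      rintro _ ⟨x, rfl⟩
      simp only
      rw [hval]
      exact (exp_pos _).le
    rcases le_total 0 y with h | h
    · refine le_trans (ciInf_le hb ⟨1, (f0_pos 1).mpr one_mem⟩) ?_
      rw [hval]
      simp [abs_of_nonneg h]
    · refine le_trans (ciInf_le hb ⟨-1, (f0_pos (-1)).mpr neg_one_mem⟩) ?_
      rw [hval]
      simp [abs_of_nonpos h]
  · apply le_ciInf
    intro x
    rw [hval]
    apply exp_le_exp.mpr
    have hx := S_subset ((f0_pos x).mp x.2)
    have h1 : (x : ℝ) * y ≤ |(x : ℝ) * y| := le_abs_self _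
    rw [abs_mul] at h1
    have h2 : |(x : ℝ)| ≤ 1 := abs_le.mpr hx
    nlinarith [abs_nonneg y]

lemma exp_abs_bound (y : ℝ) : exp (-|y|) ≤ 2 * (1 + y ^ 2)⁻¹ := by
  have h := sum_le_exp_of_nonneg (abs_nonneg y) 3
  simp only [Finset.sum_range_succ, Finset.sum_range_zero] at h
  norm_num [Nat.factorial] at h
  rw [exp_neg, ← div_eq_mul_inv, inv_eq_one_div, div_le_div_iff₀ (exp_pos _) (by positivity)]
  nlinarith [abs_nonneg y]

lemma abs_exp_abs_bound (y : ℝ) : |y * exp (-|y|)| ≤ 6 * (1 + y ^ 2)⁻¹ := by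
  have h := sum_le_exp_of_nonneg (abs_nonneg y) 4
  simp only [Finset.sum_range_succ, Finset.sum_range_zero] at h
  norm_num [Nat.factorial] at h
  rw [abs_mul, abs_of_pos (exp_pos _), exp_neg, ← div_eq_mul_inv, ← div_eq_mul_inv,
    div_le_div_iff₀ (exp_pos _) (by positivity)]
  have h3 : |y| ^ 3 = |y| * y ^ 2 := by rw [pow_succ, sq_abs]; ring
  nlinarith [abs_nonneg y, sq_nonneg y]

lemma integrable_exp_abs : Integrable (fun y : ℝ => exp (-|y|)) := by
  refine Integrable.mono' (integrable_inv_one_add_sq.const_mul 2) (by fun_prop) ?_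
  filter_upwards with y
  rw [Real.norm_eq_abs, abs_of_pos (exp_pos _)]
  exact exp_abs_bound y

lemma integrable_mul_exp_abs : Integrable (fun y : ℝ => y * exp (-|y|)) := by
  refine Integrable.mono' (integrable_inv_one_add_sq.const_mul 6) (by fun_prop) ?_
  filter_upwards with y
  rw [Real.norm_eq_abs]
  exact abs_exp_abs_bound y

lemma barycenter_polar : BarycenterZero (polar f0) := by
  have h : polar f0 = fun y => exp (-|y|) := funext polar_f0
  rw [h]
  refine ⟨fun x => (exp_pos _).le, integrable_exp_abs, ?_, integrable_mul_exp_abs, ?_⟩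
  · apply integral_pos_of_integrable_nonneg_nonzero (x := 0) (by fun_prop) integrable_exp_abs
    · intro x
      exact (exp_pos _).le
    · exact (exp_pos _).ne'
  · have h1 : ∫ x : ℝ, x * exp (-|x|) = ∫ x : ℝ, (-x) * exp (-|-x|) :=
      (integral_neg_eq_self (fun x : ℝ => x * exp (-|x|)) volume).symm
    have h2 : ∫ x : ℝ, (-x) * exp (-|-x|) = - ∫ x : ℝ, x * exp (-|x|) := by
      rw [← integral_neg]
      congr 1
      funext x
      rw [abs_neg]
      ring
    linarith

/-! ### The flow started at the indicator function -/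

/-- the evolved function, with `c = exp(-t)` and variance `v` -/
noncomputable def F (c : ℝ) (v : ℝ≥0) (x : ℝ) : ℝ := ∫ z in S, gaussianPDFReal (c * z) v x

/-- `I(y) = ∫_S exp(c z y) dz` -/
noncomputable def I (c y : ℝ) : ℝ := ∫ z in S, exp (c * z * y)

lemma evolve_eq (t : ℝ) (ht : t ≠ 0) : evolve f0 t = F (exp (-t)) (var t) := by
  funext x
  rw [evolve, if_neg ht, F, ← integral_indicator S_meas]
  congr 1
  funext z
  unfold f0
  by_cases hz : z ∈ S
  · simp [hz]
  · simp [hz]

lemma vol_S : volume S = ENNReal.ofReal (1001 / 100000) := by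
  unfold S
  rw [measure_union _ measurableSet_Icc, Real.volume_Icc, Real.volume_Icc,
    ← ENNReal.ofReal_add (by norm_num) (by norm_num)]
  · norm_num
  · rw [Set.disjoint_left]
    rintro x ⟨_, h1⟩ ⟨h2, _⟩
    linarith

lemma S_compact : IsCompact S := isCompact_Icc.union isCompact_Icc

lemma volr_S : volume.real S = 1001 / 100000 := by
  rw [Measure.real, vol_S, ENNReal.toReal_ofReal (by norm_num)]

lemma intOn {g : ℝ → ℝ} (hg : Continuous g) : IntegrableOn g S :=
  hg.continuousOn.integrableOn_compact S_compact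

lemma mass (c : ℝ) (v : ℝ≥0) (hv : v ≠ 0) :
    ∫⁻ x, ENNReal.ofReal (F c v x) = ENNReal.ofReal (1001 / 100000) := by
  have hcont : Continuous (fun p : ℝ × ℝ => gaussianPDFReal (c * p.2) v p.1) := by
    unfold gaussianPDFReal
    have hv' : (2 * (v : ℝ)) ≠ 0 := by
      have : (v : ℝ) ≠ 0 := by exact_mod_cast hv
      positivity
    fun_prop
  have h1 : ∀ x, ENNReal.ofReal (F c v x) =
      ∫⁻ z in S, ENNReal.ofReal (gaussianPDFReal (c * z) v x) := by
    intro x
    unfold F
    apply ofReal_integral_eq_lintegral_ofReal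
    · exact intOn (hcont.comp (Continuous.prodMk_right x))
    · exact Filter.Eventually.of_forall fun z => gaussianPDFReal_nonneg _ _ _
  simp_rw [h1]
  rw [lintegral_lintegral_swap]
  · simp_rw [lintegral_gaussianPDFReal_eq_one _ hv]
    rw [lintegral_const, Measure.restrict_apply_univ, one_mul, vol_S]
  · exact (ENNReal.continuous_ofReal.comp hcont).aemeasurable

lemma I_lower (c y : ℝ) (hc : 0 ≤ c) : 1001 / 100000 * exp (-(c * |y|)) ≤ I c y := by
  have h : ∫ z in S, exp (-(c * |y|)) ≤ I c y := by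
    unfold I
    apply setIntegral_mono_on (intOn continuous_const) (intOn (by fun_prop)) S_meas
    intro z hz
    apply exp_le_exp.mpr
    have hz1 := S_subset hz
    have h1 : |z| ≤ 1 := abs_le.mpr hz1
    have h2 : -(z * y) ≤ |z * y| := neg_le_abs _
    rw [abs_mul] at h2
    have h3 : |z| * |y| ≤ |y| := by nlinarith [abs_nonneg y]
    nlinarith
  rw [setIntegral_const, volr_S, smul_eq_mul] at h
  exact h

lemma I_pos (c y : ℝ) (hc : 0 ≤ c) : 0 < I c y :=
  lt_of_lt_of_le (by positivity) (I_lower c y hc)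

lemma F_upper (c : ℝ) (v : ℝ≥0) (hv : v ≠ 0) (x y : ℝ) :
    exp (x * y) * F c v x ≤ (√(2 * π * v))⁻¹ * exp (v * y ^ 2 / 2) * I c y := by
  have hv0 : (0 : ℝ) < v := by positivity
  unfold F I
  rw [← integral_const_mul, ← integral_const_mul]
  have hc1 : Continuous (fun z => gaussianPDFReal (c * z) v x) := by
    unfold gaussianPDFReal
    fun_prop (disch := positivity)
  apply setIntegral_mono_on (intOn (by fun_prop)) (intOn (by fun_prop)) S_meas
  intro z _
  unfold gaussianPDFReal
  have h1 : exp (x * y) * ((√(2 * π * v))⁻¹ * exp (-(x - c * z) ^ 2 / (2 * v))) =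
      (√(2 * π * v))⁻¹ * exp (x * y + -(x - c * z) ^ 2 / (2 * v)) := by
    rw [exp_add]
    ring
  have h2 : (√(2 * π * v))⁻¹ * exp (v * y ^ 2 / 2) * exp (c * z * y) =
      (√(2 * π * v))⁻¹ * exp (v * y ^ 2 / 2 + c * z * y) := by
    rw [exp_add]
    ring
  rw [h1, h2]
  apply mul_le_mul_of_nonneg_left _ (by positivity)
  apply exp_le_exp.mpr
  have h3 : v * y ^ 2 / 2 + c * z * y - (x * y + -(x - c * z) ^ 2 / (2 * v)) =
      (x - c * z - v * y) ^ 2 / (2 * v) := by
    field_simp
    ring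
  have h4 : 0 ≤ (x - c * z - v * y) ^ 2 / (2 * v) := by positivity
  linarith

lemma F_lower (c : ℝ) (v : ℝ≥0) (hv : v ≠ 0) (y : ℝ) :
    (√(2 * π * v))⁻¹ * exp (v * y ^ 2 / 2 - c ^ 2 / (2 * v)) * I c y ≤
      exp (v * y * y) * F c v (v * y) := by
  have hv0 : (0 : ℝ) < v := by positivity
  unfold F I
  rw [← integral_const_mul, ← integral_const_mul]
  have hc1 : Continuous (fun z => gaussianPDFReal (c * z) v (v * y)) := by
    unfold gaussianPDFReal
    fun_prop (disch := positivity)
  apply setIntegral_mono_on (intOn (by fun_prop)) (intOn (by fun_prop)) S_meas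
  intro z hz
  unfold gaussianPDFReal
  have h1 : exp (v * y * y) * ((√(2 * π * v))⁻¹ * exp (-(v * y - c * z) ^ 2 / (2 * v))) =
      (√(2 * π * v))⁻¹ * exp (v * y * y + -(v * y - c * z) ^ 2 / (2 * v)) := by
    rw [exp_add]
    ring
  have h2 : (√(2 * π * v))⁻¹ * exp (v * y ^ 2 / 2 - c ^ 2 / (2 * v)) * exp (c * z * y) =
      (√(2 * π * v))⁻¹ * exp (v * y ^ 2 / 2 - c ^ 2 / (2 * v) + c * z * y) := by
    rw [exp_add]
    ring
  rw [h1, h2]
  apply mul_le_mul_of_nonneg_left _ (by positivity)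
  apply exp_le_exp.mpr
  have h3 : v * y * y + -(v * y - c * z) ^ 2 / (2 * v) -
      (v * y ^ 2 / 2 - c ^ 2 / (2 * v) + c * z * y) = c ^ 2 * (1 - z ^ 2) / (2 * v) := by
    field_simp
    ring
  have hz1 := S_subset hz
  have h4 : 0 ≤ c ^ 2 * (1 - z ^ 2) / (2 * v) := by
    have : 0 ≤ 1 - z ^ 2 := by nlinarith
    positivity
  linarith

lemma polar_lower (c : ℝ) (hc : 0 ≤ c) (v : ℝ≥0) (hv : v ≠ 0) (y : ℝ) :
    √(2 * π * v) * exp (-(v * y ^ 2 / 2)) / I c y ≤ polar (F c v) y := by
  have hv0 : (0 : ℝ) < v := by positivity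
  have hI := I_pos c y hc
  have hFpos : 0 < F c v (v * y) := by
    have h := F_lower c v hv y
    have h2 : 0 < (√(2 * π * v))⁻¹ * exp (v * y ^ 2 / 2 - c ^ 2 / (2 * v)) * I c y := by positivity
    have h3 := lt_of_lt_of_le h2 h
    exact (mul_pos_iff_of_pos_left (exp_pos _)).mp h3
  unfold polar
  have : Nonempty {x : ℝ // 0 < F c v x} := ⟨⟨v * y, hFpos⟩⟩
  apply le_ciInf
  rintro ⟨x, hx⟩
  simp only
  have h := F_upper c v hv x y
  rw [div_le_div_iff₀ hI hx, exp_neg, exp_neg]
  have hs : 0 < √(2 * π * v) := by positivity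
  have e1 : √(2 * π * v) * (exp (v * y ^ 2 / 2))⁻¹ * F c v x =
      (exp (x * y))⁻¹ * (√(2 * π * v) * (exp (v * y ^ 2 / 2))⁻¹ * (exp (x * y) * F c v x)) := by
    have : exp (x * y) ≠ 0 := (exp_pos _).ne'
    field_simp
  rw [e1]
  apply mul_le_mul_of_nonneg_left _ (by positivity)
  have h5 := mul_le_mul_of_nonneg_left h (show 0 ≤ √(2 * π * v) * (exp (v * y ^ 2 / 2))⁻¹ by positivity)
  refine le_trans h5 (le_of_eq ?_)
  have h6 : exp (v * y ^ 2 / 2) ≠ 0 := (exp_pos _).ne'
  field_simp

lemma polar_upper (c : ℝ) (hc : 0 ≤ c) (v : ℝ≥0) (hv : v ≠ 0) (y : ℝ) :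
    polar (F c v) y ≤ √(2 * π * v) * exp (-(v * y ^ 2 / 2) + c ^ 2 / (2 * v)) / I c y := by
  have hv0 : (0 : ℝ) < v := by positivity
  have hI := I_pos c y hc
  have h := F_lower c v hv y
  have hFpos : 0 < F c v (v * y) := by
    have h2 : 0 < (√(2 * π * v))⁻¹ * exp (v * y ^ 2 / 2 - c ^ 2 / (2 * v)) * I c y := by positivity
    have h3 := lt_of_lt_of_le h2 h
    exact (mul_pos_iff_of_pos_left (exp_pos _)).mp h3
  have hb : BddBelow (range fun x : {x : ℝ // 0 < F c v x} =>
      exp (-((x : ℝ) * y)) / F c v x) := by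
    refine ⟨0, ?_⟩
    rintro _ ⟨x, rfl⟩
    exact div_nonneg (exp_pos _).le x.2.le
  unfold polar
  refine le_trans (ciInf_le hb ⟨v * y, hFpos⟩) ?_
  simp only
  have hs : 0 < √(2 * π * v) := by positivity
  rw [div_le_div_iff₀ hFpos hI]
  have e0 : exp (-(v * y ^ 2 / 2) + c ^ 2 / (2 * v)) =
      (exp (v * y ^ 2 / 2 - c ^ 2 / (2 * v)))⁻¹ := by
    rw [← exp_neg]
    congr 1
    ring
  rw [e0, exp_neg]
  have h5 := mul_le_mul_of_nonneg_left h
    (show 0 ≤ (exp (v * y * y))⁻¹ * (√(2 * π * v) * (exp (v * y ^ 2 / 2 - c ^ 2 / (2 * v)))⁻¹) by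
      positivity)
  refine le_trans (le_of_eq ?_) (le_trans h5 (le_of_eq ?_))
  · have h6 : exp (v * y ^ 2 / 2 - c ^ 2 / (2 * v)) ≠ 0 := (exp_pos _).ne'
    field_simp
  · have h6 : exp (v * y * y) ≠ 0 := (exp_pos _).ne'
    field_simp

/-! ### Lower bound at the first time, `c = 1/2`, `v = 3/4` -/

lemma I_upper_pos {y : ℝ} (hy : 0 ≤ y) : I (1 / 2) y ≤ 1001 / 100000 * exp (y / 2) := by
  have h : I (1 / 2) y ≤ ∫ z in S, exp (y / 2) := by
    unfold I
    apply setIntegral_mono_on (intOn (by fun_prop)) (intOn continuous_const) S_meas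
    intro z hz
    apply exp_le_exp.mpr
    have := S_subset hz
    nlinarith
  rwa [setIntegral_const, volr_S, smul_eq_mul] at h

lemma I_upper_neg {y : ℝ} (hy : 0 ≤ y) :
    I (1 / 2) (-y) ≤ 1 / 100 * exp (-(99 / 200 * y)) + 1 / 100000 * exp (y / 2) := by
  have hdisj : Disjoint (Icc (-1 : ℝ) (-1 + 1 / 100000)) (Icc (1 - 1 / 100) 1) := by
    rw [Set.disjoint_left]
    rintro x ⟨_, h1⟩ ⟨h2, _⟩
    linarith
  unfold I S
  rw [setIntegral_union hdisj measurableSet_Icc
    ((by fun_prop : Continuous fun z : ℝ => exp (1 / 2 * z * -y)).continuousOn.integrableOn_Icc)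
    ((by fun_prop : Continuous fun z : ℝ => exp (1 / 2 * z * -y)).continuousOn.integrableOn_Icc)]
  have h1 : ∫ z in Icc (-1 : ℝ) (-1 + 1 / 100000), exp (1 / 2 * z * -y) ≤
      ∫ z in Icc (-1 : ℝ) (-1 + 1 / 100000), exp (y / 2) := by
    apply setIntegral_mono_on
      ((by fun_prop : Continuous fun z : ℝ => exp (1 / 2 * z * -y)).continuousOn.integrableOn_Icc)
      (continuous_const.continuousOn.integrableOn_Icc) measurableSet_Icc
    rintro z ⟨hz, _⟩
    apply exp_le_exp.mpr
    nlinarith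
  have h2 : ∫ z in Icc (1 - 1 / 100 : ℝ) 1, exp (1 / 2 * z * -y) ≤
      ∫ z in Icc (1 - 1 / 100 : ℝ) 1, exp (-(99 / 200 * y)) := by
    apply setIntegral_mono_on
      ((by fun_prop : Continuous fun z : ℝ => exp (1 / 2 * z * -y)).continuousOn.integrableOn_Icc)
      (continuous_const.continuousOn.integrableOn_Icc) measurableSet_Icc
    rintro z ⟨hz, _⟩
    apply exp_le_exp.mpr
    nlinarith
  rw [setIntegral_const, Measure.real, Real.volume_Icc, smul_eq_mul,
    ENNReal.toReal_ofReal (by norm_num)] at h1 h2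
  linarith

lemma exp_three : exp 3 ≤ 20.1 := by
  have h : exp 3 = exp 1 ^ 3 := by
    rw [← exp_nat_mul]
    norm_num
  rw [h]
  have h1 := exp_one_lt_d9
  have h2 : exp 1 ^ 3 ≤ 2.7182818286 ^ 3 := pow_le_pow_left₀ (exp_pos _).le h1.le 3
  refine le_trans h2 ?_
  norm_num

/-- pointwise lower bound for the symmetrised integrand -/
lemma sym_lower {y : ℝ} (hy : 0 ≤ y) :
    2 * (1.99875 - exp (-(6 / 100 * y ^ 2)) - 1005 / 100000 * exp (3 / 16 * y ^ 2)) ≤
      1001 / 100000 * (1 / I (1 / 2) y + 1 / I (1 / 2) (-y)) := by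
  have hI1 := I_pos (1 / 2) y (by norm_num)
  have hI2 := I_pos (1 / 2) (-y) (by norm_num)
  have h1 : exp (-(y / 2)) ≤ 1001 / 100000 * (1 / I (1 / 2) y) := by
    rw [mul_one_div, le_div_iff₀ hI1]
    have := I_upper_pos hy
    calc exp (-(y / 2)) * I (1 / 2) y ≤ exp (-(y / 2)) * (1001 / 100000 * exp (y / 2)) :=
          mul_le_mul_of_nonneg_left this (exp_pos _).le
      _ = 1001 / 100000 * (exp (-(y / 2)) * exp (y / 2)) := by ring
      _ = 1001 / 100000 := by rw [← exp_add]; simp
  have h2 : exp (99 / 200 * y) * (1 - 1 / 1000 * exp y) ≤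
      1001 / 100000 * (1 / I (1 / 2) (-y)) := by
    rw [mul_one_div, le_div_iff₀ hI2]
    have h3 := I_upper_neg hy
    have h4 : 1 / 100 * exp (-(99 / 200 * y)) + 1 / 100000 * exp (y / 2) ≤
        1001 / 100000 * (exp (-(99 / 200 * y)) * (1 + 1 / 1000 * exp y)) := by
      have h5 : exp (-(99 / 200 * y)) * exp y = exp (101 / 200 * y) := by
        rw [← exp_add]
        congr 1
        ring
      have h6 : exp (y / 2) ≤ exp (101 / 200 * y) := exp_le_exp.mpr (by linarith)
      have h7 : exp (-(99 / 200 * y)) * (1 + 1 / 1000 * exp y) =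
          exp (-(99 / 200 * y)) + 1 / 1000 * exp (101 / 200 * y) := by
        rw [← h5]
        ring
      rw [h7]
      have h8 := exp_pos (-(99 / 200 * y))
      have h9 := exp_pos (101 / 200 * y)
      linarith
    rcases le_or_gt (1 - 1 / 1000 * exp y) 0 with h10 | h10
    · have h11 : exp (99 / 200 * y) * (1 - 1 / 1000 * exp y) * I (1 / 2) (-y) ≤ 0 := by
        have : exp (99 / 200 * y) * (1 - 1 / 1000 * exp y) ≤ 0 :=
          mul_nonpos_of_nonneg_of_nonpos (exp_pos _).le h10
        exact mul_nonpos_of_nonpos_of_nonneg this hI2.le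
      linarith
    · have h12 : 0 ≤ exp (99 / 200 * y) * (1 - 1 / 1000 * exp y) := by positivity
      calc exp (99 / 200 * y) * (1 - 1 / 1000 * exp y) * I (1 / 2) (-y)
          ≤ exp (99 / 200 * y) * (1 - 1 / 1000 * exp y) *
            (1001 / 100000 * (exp (-(99 / 200 * y)) * (1 + 1 / 1000 * exp y))) :=
            mul_le_mul_of_nonneg_left (le_trans h3 h4) h12
        _ = 1001 / 100000 * (exp (99 / 200 * y) * exp (-(99 / 200 * y))) *
            (1 - (1 / 1000 * exp y) ^ 2) := by ring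
        _ ≤ 1001 / 100000 := by
            rw [← exp_add]
            have : 99 / 200 * y + -(99 / 200 * y) = 0 := by ring
            rw [this, exp_zero]
            nlinarith [sq_nonneg (1 / 1000 * exp y)]
  have h13 : 1 - y / 2 ≤ exp (-(y / 2)) := by
    have := add_one_le_exp (-(y / 2))
    linarith
  have h14 : 1 + 99 / 200 * y + (99 / 200 * y) ^ 2 / 2 ≤ exp (99 / 200 * y) :=
    quadratic_le_exp_of_nonneg (by positivity)
  have h15 : exp (99 / 200 * y) * exp y ≤ 20.1 * exp (3 / 16 * y ^ 2) := by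
    calc exp (99 / 200 * y) * exp y = exp (299 / 200 * y) := by
          rw [← exp_add]; congr 1; ring
      _ ≤ exp (3 + 3 / 16 * y ^ 2) := by
          apply exp_le_exp.mpr
          nlinarith [sq_nonneg (y / 4 - 1), sq_nonneg (y - 4)]
      _ = exp 3 * exp (3 / 16 * y ^ 2) := exp_add _ _
      _ ≤ 20.1 * exp (3 / 16 * y ^ 2) :=
          mul_le_mul_of_nonneg_right exp_three (exp_pos _).le
  have h16 : 1 - 6 / 100 * y ^ 2 ≤ exp (-(6 / 100 * y ^ 2)) := by
    have := add_one_le_exp (-(6 / 100 * y ^ 2))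
    linarith
  have h17 : exp (99 / 200 * y) * (1 - 1 / 1000 * exp y) =
      exp (99 / 200 * y) - 1 / 1000 * (exp (99 / 200 * y) * exp y) := by ring
  rw [h17] at h2
  nlinarith [sq_nonneg (y - 1)]

/-- lower bound of the integral of the lower bound of the polar -/
lemma lint_lower (v : ℝ≥0) (hv : (v : ℝ) = 3 / 4) :
    ENNReal.ofReal (√(2 * π * v) / (1001 / 100000) * (1.724 * √π)) ≤
      ∫⁻ y, ENNReal.ofReal (√(2 * π * v) * exp (-(v * y ^ 2 / 2)) / I (1 / 2) y) := by
  set h : ℝ → ℝ≥0∞ := fun y => ENNReal.ofReal (√(2 * π * v) * exp (-(v * y ^ 2 / 2)) / I (1 / 2) y)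
    with hh
  have hneg : ∫⁻ y, h (-y) = ∫⁻ y, h y := lintegral_neg_eq_self h
  set K : ℝ := √(2 * π * v) / (1001 / 100000) with hK
  have hK0 : 0 ≤ K := by positivity
  set Q : ℝ → ℝ := fun y => 1.99875 * exp (-(3 / 8) * y ^ 2) - exp (-(435 / 1000) * y ^ 2) -
    1005 / 100000 * exp (-(3 / 16) * y ^ 2) with hQ
  have hpt : ∀ y, 0 ≤ y → ENNReal.ofReal (2 * (K * Q y)) ≤ h y + h (-y) := by
    intro y hy
    have hs := sym_lower hy
    have hI1 := I_pos (1 / 2) y (by norm_num)
    have hI2 := I_pos (1 / 2) (-y) (by norm_num)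
    rw [hh]
    simp only
    rw [← ENNReal.ofReal_add (by positivity) (by positivity)]
    apply ENNReal.ofReal_le_ofReal
    have e1 : √(2 * π * v) * exp (-(v * y ^ 2 / 2)) / I (1 / 2) y +
        √(2 * π * v) * exp (-(v * (-y) ^ 2 / 2)) / I (1 / 2) (-y) =
        K * exp (-(3 / 8) * y ^ 2) * (1001 / 100000 * (1 / I (1 / 2) y + 1 / I (1 / 2) (-y))) := by
      have e2 : -(v * (-y) ^ 2 / 2) = -(3 / 8) * y ^ 2 := by rw [hv]; ring
      have e3 : -(v * y ^ 2 / 2) = -(3 / 8) * y ^ 2 := by rw [hv]; ring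
      rw [e2, e3, hK]
      field_simp
    rw [e1]
    have e4 : Q y = exp (-(3 / 8) * y ^ 2) *
        (1.99875 - exp (-(6 / 100 * y ^ 2)) - 1005 / 100000 * exp (3 / 16 * y ^ 2)) := by
      rw [hQ]
      simp only
      have e5 : exp (-(435 / 1000) * y ^ 2) = exp (-(3 / 8) * y ^ 2) * exp (-(6 / 100 * y ^ 2)) := by
        rw [← exp_add]
        congr 1
        ring
      have e6 : exp (-(3 / 16) * y ^ 2) = exp (-(3 / 8) * y ^ 2) * exp (3 / 16 * y ^ 2) := by
        rw [← exp_add]
        congr 1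
        ring
      rw [e5, e6]
      ring
    rw [e4]
    have h0 : 0 ≤ K * exp (-(3 / 8) * y ^ 2) := by positivity
    have h1 := mul_le_mul_of_nonneg_left hs h0
    linarith
  have hpt2 : ∀ y, ENNReal.ofReal (2 * (K * Q y)) ≤ h y + h (-y) := by
    intro y
    rcases le_total 0 y with hy | hy
    · exact hpt y hy
    · have := hpt (-y) (by linarith)
      rw [neg_neg, add_comm] at this
      have hQs : Q (-y) = Q y := by
        rw [hQ]
        simp only [neg_sq]
      rwa [hQs] at this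
  have hQint : Integrable Q := by
    apply Integrable.sub
    · apply Integrable.sub
      · exact (integrable_exp_neg_mul_sq (by norm_num)).const_mul _
      · exact integrable_exp_neg_mul_sq (by norm_num)
    · exact (integrable_exp_neg_mul_sq (by norm_num)).const_mul _
  have hval : ∫ y, Q y = 1.99875 * √(π / (3 / 8)) - √(π / (435 / 1000)) -
      1005 / 100000 * √(π / (3 / 16)) := by
    rw [hQ, integral_sub, integral_sub, integral_const_mul, integral_const_mul, integral_gaussian,
      integral_gaussian, integral_gaussian]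
    · exact (integrable_exp_neg_mul_sq (by norm_num)).const_mul _
    · exact integrable_exp_neg_mul_sq (by norm_num)
    · apply Integrable.sub
      · exact (integrable_exp_neg_mul_sq (by norm_num)).const_mul _
      · exact integrable_exp_neg_mul_sq (by norm_num)
    · exact (integrable_exp_neg_mul_sq (by norm_num)).const_mul _
  have hvalb : 1.724 * √π ≤ ∫ y, Q y := by
    rw [hval]
    have hp : 0 ≤ √π := sqrt_nonneg _
    have s1 : 1.63297 * √π ≤ √(π / (3 / 8)) := by
      apply le_sqrt_of_sq_le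
      rw [mul_pow, sq_sqrt pi_pos.le]
      nlinarith [pi_pos]
    have s2 : √(π / (435 / 1000)) ≤ 1.51621 * √π := by
      rw [sqrt_le_left (by positivity), mul_pow, sq_sqrt pi_pos.le]
      nlinarith [pi_pos]
    have s3 : √(π / (3 / 16)) ≤ 2.31 * √π := by
      rw [sqrt_le_left (by positivity), mul_pow, sq_sqrt pi_pos.le]
      nlinarith [pi_pos]
    nlinarith
  have hlow : ENNReal.ofReal (2 * (K * (1.724 * √π))) ≤ ∫⁻ y, ENNReal.ofReal (2 * (K * Q y)) := by
    have hi : Integrable (fun y => 2 * (K * Q y)) := (hQint.const_mul K).const_mul 2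
    have h1 := integral_eq_lintegral_pos_part_sub_lintegral_neg_part hi
    have h2 : 2 * (K * (1.724 * √π)) ≤ (∫⁻ y, ENNReal.ofReal (2 * (K * Q y))).toReal := by
      have h3 : ∫ y, 2 * (K * Q y) = 2 * (K * ∫ y, Q y) := by
        rw [integral_const_mul, integral_const_mul]
      have h4 : 2 * (K * (1.724 * √π)) ≤ 2 * (K * ∫ y, Q y) := by
        have := mul_le_mul_of_nonneg_left hvalb hK0
        linarith
      rw [← h3, h1] at h4
      have h5 : 0 ≤ (∫⁻ y, ENNReal.ofReal (-(2 * (K * Q y)))).toReal := ENNReal.toReal_nonneg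
      linarith
    exact le_trans (ENNReal.ofReal_le_ofReal h2) ENNReal.ofReal_toReal_le
  have hmeas : Measurable fun y => h (-y) := by
    have hIc : Measurable (fun y => I (1 / 2) y) := by
      unfold I
      have : Measurable (fun p : ℝ × ℝ => exp (1 / 2 * p.2 * p.1)) := by fun_prop
      exact (this.stronglyMeasurable.integral_prod_right' (ν := volume.restrict S)).measurable
    rw [hh]
    have := hIc.comp measurable_neg
    simp only [Function.comp_def] at this
    fun_prop
  have hsum : ∫⁻ y, ENNReal.ofReal (2 * (K * Q y)) ≤ 2 * ∫⁻ y, h y := by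
    calc ∫⁻ y, ENNReal.ofReal (2 * (K * Q y)) ≤ ∫⁻ y, (h y + h (-y)) := lintegral_mono hpt2
      _ = (∫⁻ y, h y) + ∫⁻ y, h (-y) := lintegral_add_right _ hmeas
      _ = 2 * ∫⁻ y, h y := by rw [hneg, two_mul]
  have hfin := le_trans hlow hsum
  rw [ENNReal.ofReal_mul (by norm_num), ENNReal.ofReal_ofNat] at hfin
  exact (ENNReal.mul_le_mul_iff_right (by norm_num) (by norm_num)).mp hfin

/-! ### Upper bound at the second time, `c = 1/100`, `v = 9999/10000` -/

lemma lint_upper (v : ℝ≥0) (hv : (v : ℝ) = 9999 / 10000) :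
    ∫⁻ y, ENNReal.ofReal (√(2 * π * v) * exp (-(v * y ^ 2 / 2) + (1 / 100) ^ 2 / (2 * v)) /
      I (1 / 100) y) ≤
      ENNReal.ofReal (√(2 * π * v) / (1001 / 100000) * (1.0052 * √(π / (9899 / 20000)))) := by
  have hpt : ∀ y, √(2 * π * v) * exp (-(v * y ^ 2 / 2) + (1 / 100) ^ 2 / (2 * v)) /
      I (1 / 100) y ≤ √(2 * π * v) / (1001 / 100000) * (1.0052 * exp (-(9899 / 20000) * y ^ 2)) := by
    intro y
    have hI := I_pos (1 / 100) y (by norm_num)
    have hIl := I_lower (1 / 100) y (by norm_num)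
    rw [div_le_iff₀ hI]
    have h1 : exp (-(v * y ^ 2 / 2) + (1 / 100) ^ 2 / (2 * v)) ≤
        1.0052 * exp (-(9899 / 20000) * y ^ 2) * exp (-(1 / 100 * |y|)) := by
      have h2 : exp (51 / 10000) ≤ 1.0052 := by
        have h3 : 1 - 51 / 10000 ≤ exp (-(51 / 10000)) := by
          have := add_one_le_exp (-(51 / 10000) : ℝ)
          linarith
        rw [exp_neg] at h3
        have h4 : (0 : ℝ) < exp (51 / 10000) := exp_pos _
        have h5 : exp (51 / 10000) * (1 - 51 / 10000) ≤ 1 := by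
          calc exp (51 / 10000) * (1 - 51 / 10000) ≤ exp (51 / 10000) * (exp (51 / 10000))⁻¹ :=
                mul_le_mul_of_nonneg_left h3 h4.le
            _ = 1 := mul_inv_cancel₀ h4.ne'
        nlinarith
      calc exp (-(v * y ^ 2 / 2) + (1 / 100) ^ 2 / (2 * v)) ≤
          exp (51 / 10000 + (-(9899 / 20000) * y ^ 2 + -(1 / 100 * |y|))) := by
            apply exp_le_exp.mpr
            rw [hv]
            have h6 : |y| ^ 2 = y ^ 2 := sq_abs y
            nlinarith [sq_nonneg (|y| - 1)]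
        _ = exp (51 / 10000) * (exp (-(9899 / 20000) * y ^ 2) * exp (-(1 / 100 * |y|))) := by
            rw [exp_add, exp_add]
        _ ≤ 1.0052 * (exp (-(9899 / 20000) * y ^ 2) * exp (-(1 / 100 * |y|))) :=
            mul_le_mul_of_nonneg_right h2 (by positivity)
        _ = _ := by ring
    calc √(2 * π * v) * exp (-(v * y ^ 2 / 2) + (1 / 100) ^ 2 / (2 * v))
        ≤ √(2 * π * v) * (1.0052 * exp (-(9899 / 20000) * y ^ 2) * exp (-(1 / 100 * |y|))) :=
          mul_le_mul_of_nonneg_left h1 (sqrt_nonneg _)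
      _ = √(2 * π * v) / (1001 / 100000) * (1.0052 * exp (-(9899 / 20000) * y ^ 2)) *
          (1001 / 100000 * exp (-(1 / 100 * |y|))) := by ring
      _ ≤ √(2 * π * v) / (1001 / 100000) * (1.0052 * exp (-(9899 / 20000) * y ^ 2)) *
          I (1 / 100) y := mul_le_mul_of_nonneg_left hIl (by positivity)
  refine le_trans (lintegral_mono fun y => ENNReal.ofReal_le_ofReal (hpt y)) ?_
  rw [← ofReal_integral_eq_lintegral_ofReal]
  · rw [integral_const_mul, integral_const_mul, integral_gaussian]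
  · exact ((integrable_exp_neg_mul_sq (by norm_num)).const_mul _).const_mul _
  · exact Filter.Eventually.of_forall fun y => by positivity

/-- **The volume product is not monotone.** There is a measurable `f ≥ 0` on the line with
`0 < ∫ f < ∞` whose polar `f°` has barycenter `0`, and times `0 ≤ t₁ < t₂`, such that
`∫ f_{t₁} ∫ (f_{t₁})° > ∫ f_{t₂} ∫ (f_{t₂})°`. -/
theorem result : ∃ f : ℝ → ℝ, Measurable f ∧ (∀ x, 0 ≤ f x) ∧
    0 < ∫⁻ x, ENNReal.ofReal (f x) ∧ ∫⁻ x, ENNReal.ofReal (f x) < ∞ ∧ BarycenterZero (polar f) ∧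
    ∃ t₁ t₂ : ℝ, 0 ≤ t₁ ∧ t₁ < t₂ ∧
      volumeProduct (evolve f t₂) < volumeProduct (evolve f t₁) := by
  have hint : ∫⁻ x, ENNReal.ofReal (f0 x) = ENNReal.ofReal (1001 / 100000) := by
    have : (fun x => ENNReal.ofReal (f0 x)) = S.indicator (fun _ => 1) := by
      funext x
      unfold f0
      by_cases hx : x ∈ S <;> simp [hx]
    rw [this, lintegral_indicator S_meas, lintegral_const, Measure.restrict_apply_univ, one_mul,
      vol_S]
  refine ⟨f0, measurable_const.indicator S_meas, ?_, ?_, ?_, barycenter_polar, log 2, log 100,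
    log_nonneg (by norm_num), log_lt_log (by norm_num) (by norm_num), ?_⟩
  · intro x
    unfold f0
    by_cases hx : x ∈ S <;> simp [hx]
  · rw [hint]
    simp
  · rw [hint]
    exact ENNReal.ofReal_lt_top
  · have hl2 : log 2 ≠ 0 := (log_pos (by norm_num)).ne'
    have hl100 : log 100 ≠ 0 := (log_pos (by norm_num)).ne'
    have e2 : exp (-log 2) = 1 / 2 := by rw [exp_neg, exp_log (by norm_num)]; norm_num
    have e100 : exp (-log 100) = 1 / 100 := by rw [exp_neg, exp_log (by norm_num)]; norm_num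
    have v2 : ((var (log 2) : ℝ≥0) : ℝ) = 3 / 4 := by
      have h1 : exp (-(2 * log 2)) = 1 / 4 := by
        have : -(2 * log 2) = -log 2 + -log 2 := by ring
        rw [this, exp_add, e2]
        norm_num
      rw [var, h1, Real.coe_toNNReal _ (by norm_num)]
      norm_num
    have v100 : ((var (log 100) : ℝ≥0) : ℝ) = 9999 / 10000 := by
      have h1 : exp (-(2 * log 100)) = 1 / 10000 := by
        have : -(2 * log 100) = -log 100 + -log 100 := by ring
        rw [this, exp_add, e100]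
        norm_num
      rw [var, h1, Real.coe_toNNReal _ (by norm_num)]
      norm_num
    have hv2 : var (log 2) ≠ 0 := by
      intro h
      rw [h] at v2
      norm_num at v2
    have hv100 : var (log 100) ≠ 0 := by
      intro h
      rw [h] at v100
      norm_num at v100
    rw [evolve_eq _ hl2, evolve_eq _ hl100, e2, e100]
    unfold volumeProduct
    rw [mass _ _ hv2, mass _ _ hv100]
    have hlow := le_trans (lint_lower (var (log 2)) v2)
      (lintegral_mono fun y => ENNReal.ofReal_le_ofReal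
        (polar_lower (1 / 2) (by norm_num) (var (log 2)) hv2 y))
    have hup := le_trans (lintegral_mono fun y => ENNReal.ofReal_le_ofReal
        (polar_upper (1 / 100) (by norm_num) (var (log 100)) hv100 y))
      (lint_upper (var (log 100)) v100)
    rw [ENNReal.mul_lt_mul_iff_right (by simp) (by simp)]
    refine lt_of_le_of_lt hup (lt_of_lt_of_le ?_ hlow)
    rw [ENNReal.ofReal_lt_ofReal_iff (by positivity), v2, v100]
    have hp : 0 < √π := sqrt_pos.mpr pi_pos
    have s1 : √(2 * π * (9999 / 10000)) ≤ 1.4143 * √π := by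
      rw [sqrt_le_left (by positivity), mul_pow, sq_sqrt pi_pos.le]
      nlinarith [pi_pos]
    have s2 : √(π / (9899 / 20000)) ≤ 1.4215 * √π := by
      rw [sqrt_le_left (by positivity), mul_pow, sq_sqrt pi_pos.le]
      nlinarith [pi_pos]
    have s3 : 1.2247 * √π ≤ √(2 * π * (3 / 4)) := by
      apply le_sqrt_of_sq_le
      rw [mul_pow, sq_sqrt pi_pos.le]
      nlinarith [pi_pos]
    have h1 : √(2 * π * (9999 / 10000)) / (1001 / 100000) * (1.0052 * √(π / (9899 / 20000))) ≤
        1.4143 * √π / (1001 / 100000) * (1.0052 * (1.4215 * √π)) := by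
      gcongr
    have h2 : 1.2247 * √π / (1001 / 100000) * (1.724 * √π) ≤
        √(2 * π * (3 / 4)) / (1001 / 100000) * (1.724 * √π) := by
      gcongr
    refine lt_of_le_of_lt h1 (lt_of_lt_of_le ?_ h2)
    have h3 : 0 < √π * √π := by positivity
    nlinarith

end Pool.Agent.Results.MP_31abd3_an.NotMonotone
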